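import Pool.Agent.H54.BQ.INT3

/-!
# Row INT of the board bq: interpolation between the sides
-/

set_option autoImplicit false

namespace Pool.Agent.H54.BQ

open MeasureTheory Set Filter Topology Pool.Agent.H79.GT Pool.Agent.H44.DU

/-- null sets of the leaf coordinate -/
lemma xi_ae (t : ℝ) {p : ℝ → Prop} (h : ∀ᵐ x : ℝ, p x) : ∀ᵐ z : ℂ, p (xi t z) := by
  let L : ℂ →ₗ[ℝ] ℝ := Complex.reLm - t • Complex.imLm
  have hL : ∀ z, L z = xi t z := fun z => by
    simp [L, xi]
  have hs : Function.Surjective L := fun x => ⟨(x : ℂ), by rw [hL]; simp [xi]⟩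
  obtain ⟨N, hN1, hN2, hN3⟩ := exists_measurable_superset_of_null (ae_iff.1 h)
  have h0 : ∀ᵐ x : ℝ, x ∈ Nᶜ := by
    rw [ae_iff]
    simpa using hN3
  have h1 := (ae_comp_linearMap_mem_iff L volume volume hs hN2.compl).2 h0
  filter_upwards [h1] with z hz
  rw [hL] at hz
  by_contra hc
  exact hz (hN1 hc)

lemma tri_meas {n : ℕ} (S : Surf n) (i : Fin n) : MeasurableSet (S.tri i) :=
  ((Set.finite_range (S.v i)).isCompact_convexHull (𝕜 := ℝ)).isClosed.measurableSet

/-- comparison of an integral over the triangle -/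
lemma tri_le {n : ℕ} (S : Surf n) (t : ℝ) (hc : T_CH) (hf : T_FUB) (i : Fin n)
    {F : ℂ → ℝ} {N : ℝ → ℝ} (hN : IntegrableOn N (Ioo (S.xl t i) (S.xr t i)))
    (hF : ∀ z, 0 ≤ F z)
    (h : ∀ᵐ z : ℂ, z ∈ S.tri i → S.xl t i < xi t z → xi t z < S.xr t i →
      F z ≤ N (xi t z) / ch S t i (xi t z)) :
    ∫ z in S.tri i, F z ≤ ∫ x in Ioo (S.xl t i) (S.xr t i), N x := by
  obtain ⟨-, c2, -, -, c5, -, -, c8, -⟩ := hc n S t i
  have he : EqOn N (fun x => N x / ch S t i x * ch S t i x) (Ioo (S.xl t i) (S.xr t i)) := by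
    intro x hx
    exact (div_mul_cancel₀ _ (c5 x hx.1 hx.2).ne').symm
  have hM : AEStronglyMeasurable (fun x => N x / ch S t i x)
      (volume.restrict (Ioo (S.xl t i) (S.xr t i))) :=
    (hN.aestronglyMeasurable.aemeasurable.div c8.aemeasurable).aestronglyMeasurable
  obtain ⟨g1, g2⟩ := hf n S t i (fun x => N x / ch S t i x) hM
    (hN.congr_fun he measurableSet_Ioo)
  have h1 : ∀ᵐ z : ℂ, xi t z ≠ S.xl t i ∧ xi t z ≠ S.xr t i := by
    refine xi_ae t (p := fun x => x ≠ S.xl t i ∧ x ≠ S.xr t i) ?_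
    have e1 : ∀ᵐ x : ℝ, x ≠ S.xl t i := by
      rw [ae_iff]
      simp
    have e2 : ∀ᵐ x : ℝ, x ≠ S.xr t i := by
      rw [ae_iff]
      simp
    filter_upwards [e1, e2] with x hx hy
    exact ⟨hx, hy⟩
  calc ∫ z in S.tri i, F z ≤ ∫ z in S.tri i, N (xi t z) / ch S t i (xi t z) := by
        refine integral_mono_of_nonneg (Eventually.of_forall hF) g1 ?_
        rw [EventuallyLE, ae_restrict_iff' (tri_meas S i)]
        filter_upwards [h, h1] with z hz hz1 hzt
        obtain ⟨d1, d2, -, -⟩ := (c2 z).1 hzt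
        exact hz hzt (lt_of_le_of_ne d1 (Ne.symm hz1.1)) (lt_of_le_of_ne d2 hz1.2)
    _ = ∫ x in Ioo (S.xl t i) (S.xr t i), N x / ch S t i x * ch S t i x := g2
    _ = ∫ x in Ioo (S.xl t i) (S.xr t i), N x := (setIntegral_congr_fun measurableSet_Ioo he).symm

/-- the sum over the sides of a triangle -/
noncomputable def Sm {n : ℕ} (S : Surf n) (t : ℝ) (Z : Side n → ℝ → ℝ) (i : Fin n) (x : ℝ) : ℝ :=
  ∑ k : Fin 3, (Ioo (le S t (i, k)) (ri S t (i, k))).indicator (Z (i, k)) x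

section sums

variable {n : ℕ} (S : Surf n) (t : ℝ) {Z : Side n → ℝ → ℝ}

lemma sm_int (hZ : ∀ s, IntegrableOn (Z s) (Ioo (le S t s) (ri S t s))) (i : Fin n) :
    Integrable (Sm S t Z i) := by
  unfold Sm
  refine integrable_finsetSum _ fun k _ => ?_
  exact (integrable_indicator_iff measurableSet_Ioo).2 (hZ (i, k))

lemma sm_eq (hp : T_PART) (hZ : ∀ s, IntegrableOn (Z s) (Ioo (le S t s) (ri S t s)))
    (i : Fin n) : ∫ x in Ioo (S.xl t i) (S.xr t i), Sm S t Z i x =
      ∑ k : Fin 3, ∫ x in Ioo (le S t (i, k)) (ri S t (i, k)), Z (i, k) x := by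
  obtain ⟨-, -, p3, -, -⟩ := hp n S t
  unfold Sm
  rw [integral_finsetSum]
  · refine Finset.sum_congr rfl fun k _ => ?_
    rw [setIntegral_indicator measurableSet_Ioo, inter_eq_right.2]
    exact Ioo_subset_Ioo (p3 (i, k)).1 (p3 (i, k)).2.2
  · intro k _
    exact ((integrable_indicator_iff measurableSet_Ioo).2 (hZ (i, k))).integrableOn

lemma sm_ge {i : Fin n} {x : ℝ}
    (h0 : ∀ r : Side n, r.1 = i → le S t r < x → x < ri S t r → 0 ≤ Z r x) {s : Side n}
    (hs : s.1 = i) (h1 : le S t s < x) (h2 : x < ri S t s) : Z s x ≤ Sm S t Z i x := by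
  subst hs
  have h3 : (Ioo (le S t (s.1, s.2)) (ri S t (s.1, s.2))).indicator (Z (s.1, s.2)) x = Z s x :=
    indicator_of_mem (s := Ioo (le S t s) (ri S t s)) ⟨h1, h2⟩ (Z s)
  unfold Sm
  rw [← h3]
  refine Finset.single_le_sum
    (f := fun k => (Ioo (le S t (s.1, k)) (ri S t (s.1, k))).indicator (Z (s.1, k)) x)
    (fun k _ => ?_) (Finset.mem_univ s.2)
  by_cases hx : x ∈ Ioo (le S t (s.1, k)) (ri S t (s.1, k))
  · simp only [indicator_of_mem hx]
    exact h0 (s.1, k) rfl hx.1 hx.2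
  · simp only [indicator_of_notMem hx, le_refl]

end sums

theorem pf_INT (hc : T_CH) (hp : T_PART) (hf : T_FUB) : T_INT := by
  intro n S t
  choose Kt hKt0 k1 k2 using fun i => ch_data S t hc i
  have hBex : ∀ i, ∃ B : ℝ, 0 ≤ B ∧ ∀ x ∈ Icc (S.xl t i) (S.xr t i), ch S t i x ≤ B := by
    intro i
    obtain ⟨B, hB⟩ := isCompact_Icc.exists_bound_of_continuousOn (ch_cont S t hc i)
    refine ⟨|B|, abs_nonneg _, fun x hx => ?_⟩
    exact (le_abs_self _).trans ((hB x hx).trans (le_abs_self _))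
  choose B hB0 hB using hBex
  set KK : ℝ := ∑ i, Kt i with hKK
  set BB : ℝ := ∑ i, B i with hBB
  have hKK0 : 0 ≤ KK := Finset.sum_nonneg fun i _ => hKt0 i
  have hBB0 : 0 ≤ BB := Finset.sum_nonneg fun i _ => hB0 i
  have hKti : ∀ i, Kt i ≤ KK := fun i =>
    Finset.single_le_sum (f := Kt) (fun j _ => hKt0 j) (Finset.mem_univ i)
  have hBi : ∀ i, B i ≤ BB := fun i =>
    Finset.single_le_sum (f := B) (fun j _ => hB0 j) (Finset.mem_univ i)
  refine ⟨24 + 108 * KK ^ 2 + 2 * BB, by positivity, ?_⟩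
  intro ζ Φ X Y K d hd hl hv hn hg hX hY hXY hYm
  obtain ⟨p1, p2, p3, p4, p5⟩ := hp n S t
  have c5 : ∀ i x, S.xl t i < x → x < S.xr t i → 0 < ch S t i x := fun i =>
    (hc n S t i).2.2.2.2.1
  have c6 : ∀ i x, 0 ≤ ch S t i x := fun i => (hc n S t i).2.2.2.2.2.1
  -- the good coordinates
  have A2 : ∀ᵐ x : ℝ, ∀ s s' : Side n, s.1 = s'.1 → S.InI t s x → S.InJ t s' x →
      ‖Φ s x - Φ s' x‖ ^ 2 ≤ ch S t s.1 x * X s.1 x := by
    refine ae_all_iff.2 fun s => ae_all_iff.2 fun s' => ?_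
    by_cases h : s.1 = s'.1
    · filter_upwards [hXY s s' h] with x hx _
      exact hx
    · exact Eventually.of_forall fun x h' => absurd h' h
  have A3 : ∀ᵐ x : ℝ, ∀ s : Side n, le S t s < x → x < ri S t s → ∃ m : ℝ, 0 ≤ m ∧
      m ^ 2 * ch S t s.1 x ≤ Y s x ∧ ∀ᶠ x' in 𝓝 x, ‖Φ s x' - Φ s x‖ ≤ m * |x' - x| :=
    ae_all_iff.2 hYm
  have hgood : ∀ i, ∀ᵐ x : ℝ, S.xl t i < x → x < S.xr t i → ∃ s s' : Side n, s.1 = i ∧
      s'.1 = i ∧ S.InI t s x ∧ S.InJ t s' x ∧
      ‖Ou S t Φ i x - En S t Φ i x‖ ^ 2 ≤ ch S t i x * X i x := by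
    intro i
    filter_upwards [p1 i, A2] with x h1 h2 h3 h4
    obtain ⟨⟨s, hs, hI⟩, ⟨s', hs', hJ⟩⟩ := h1 h3 h4
    refine ⟨s, s', hs, hs', hI, hJ, ?_⟩
    have h5 := h2 s s' (hs.trans hs'.symm) hI hJ
    rw [norm_sub_rev]
    have e1 := en_eq S t Φ hI
    have e2 := ou_eq S t Φ hJ
    rw [hs] at e1 h5
    rw [hs'] at e2
    rw [e1, e2]
    exact h5
  have hYnn : ∀ᵐ x : ℝ, ∀ s : Side n, le S t s < x → x < ri S t s → 0 ≤ Y s x := by
    filter_upwards [A3] with x hx s h1 h2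
    obtain ⟨m, hm, h3, -⟩ := hx s h1 h2
    exact (mul_nonneg (sq_nonneg _) (c6 _ _)).trans h3
  have hXnn : ∀ i, ∀ᵐ x : ℝ, S.xl t i < x → x < S.xr t i → 0 ≤ X i x := by
    intro i
    filter_upwards [hgood i] with x hx h1 h2
    obtain ⟨s, s', -, -, -, -, h⟩ := hx h1 h2
    have h3 : 0 ≤ ch S t i x * X i x := (sq_nonneg _).trans h
    exact nonneg_of_mul_nonneg_right h3 (c5 i x h1 h2)
  have hIX : ∀ i, 0 ≤ ∫ x in Ioo (S.xl t i) (S.xr t i), X i x := by
    intro i
    refine setIntegral_nonneg_of_ae_restrict ?_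
    rw [EventuallyLE, ae_restrict_iff' measurableSet_Ioo]
    filter_upwards [hXnn i] with x hx hxI
    exact hx hxI.1 hxI.2
  have hIY : ∀ s, 0 ≤ ∫ x in Ioo (le S t s) (ri S t s), Y s x := by
    intro s
    refine setIntegral_nonneg_of_ae_restrict ?_
    rw [EventuallyLE, ae_restrict_iff' measurableSet_Ioo]
    filter_upwards [hYnn] with x hx hxI
    exact hx s hxI.1 hxI.2
  have hSX : 0 ≤ ∑ i : Fin n, ∫ x in Ioo (S.xl t i) (S.xr t i), X i x :=
    Finset.sum_nonneg fun i _ => hIX i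
  have hSY : 0 ≤ ∑ s : Side n, ∫ x in Ioo (le S t s) (ri S t s), Y s x :=
    Finset.sum_nonneg fun s _ => hIY s
  refine ⟨GG S t Φ, ⟨gg_lip S t hc hp hd hl hv hn, gg_glue S t hc hp hd hv hg⟩,
    fun i z hz => gg_norm S t hc hn i hz, ?_, ?_, ?_⟩
  · -- the energy along the leaves
    unfold Surf.en
    refine Finset.sum_le_sum fun i _ => ?_
    refine tri_le S t hc hf i (hX i) (fun z => sq_nonneg _) ?_
    filter_upwards [xi_ae t (hgood i)] with z hz _ h1 h2
    obtain ⟨s, s', -, -, -, -, h⟩ := hz h1 h2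
    have hch := c5 i _ h1 h2
    have h3 := fd_leaf S t (Φ := Φ) hc i z
    calc ‖fderiv ℝ (GG S t Φ i) z ((t : ℂ) + Complex.I)‖ ^ 2
        ≤ (‖Ou S t Φ i (xi t z) - En S t Φ i (xi t z)‖ / ch S t i (xi t z)) ^ 2 :=
          pow_le_pow_left₀ (norm_nonneg _) h3 2
      _ = ‖Ou S t Φ i (xi t z) - En S t Φ i (xi t z)‖ ^ 2 / ch S t i (xi t z) /
          ch S t i (xi t z) := by
          rw [div_pow, sq (ch S t i (xi t z)), div_mul_eq_div_div]
      _ ≤ X i (xi t z) / ch S t i (xi t z) := by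
          refine div_le_div_of_nonneg_right ?_ hch.le
          rw [div_le_iff₀ hch]
          linarith
  · -- the horizontal energy
    unfold Surf.en
    have h1 : ∀ i, ∫ z in S.tri i, ‖fderiv ℝ (GG S t Φ i) z 1‖ ^ 2 ≤
        24 * (∑ k : Fin 3, ∫ x in Ioo (le S t (i, k)) (ri S t (i, k)), Y (i, k) x) +
        108 * Kt i ^ 2 * ∫ x in Ioo (S.xl t i) (S.xr t i), X i x := by
      intro i
      have hN : IntegrableOn (fun x => 24 * Sm S t Y i x + 108 * Kt i ^ 2 * X i x)
          (Ioo (S.xl t i) (S.xr t i)) :=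
        ((sm_int S t hY i).integrableOn.const_mul 24).add ((hX i).const_mul _)
      refine (tri_le S t hc hf i hN (fun z => sq_nonneg _) ?_).trans (le_of_eq ?_)
      · filter_upwards [xi_ae t (hgood i), xi_ae t A3, xi_ae t hYnn] with z hz hz3 hz4 hzt hx1 hx2
        obtain ⟨s, s', hs, hs', hI, hJ, h⟩ := hz hx1 hx2
        have hch := c5 i _ hx1 hx2
        have hsr := (p2 s _).1 (Or.inl hI)
        have hsr' := (p2 s' _).1 (Or.inr hJ)
        obtain ⟨m, hm, m1, m2⟩ := hz3 s hsr.1 hsr.2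
        obtain ⟨m', hm', m1', m2'⟩ := hz3 s' hsr'.1 hsr'.2
        rw [hs] at m1
        rw [hs'] at m1'
        have h3 := fd_hor S t (Φ := Φ) hc i (hKt0 i) (k1 i) (k2 i) hzt hx1 hx2 hs hs' hI hJ hm
          hm' m2 m2'
        have e1 : Y s (xi t z) ≤ Sm S t Y i (xi t z) :=
          sm_ge S t (fun r _ h1 h2 => hz4 r h1 h2) hs hsr.1 hsr.2
        have e2 : Y s' (xi t z) ≤ Sm S t Y i (xi t z) :=
          sm_ge S t (fun r _ h1 h2 => hz4 r h1 h2) hs' hsr'.1 hsr'.2
        rw [le_div_iff₀ hch]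
        set c := ch S t i (xi t z) with hcdef
        set q := ‖Ou S t Φ i (xi t z) - En S t Φ i (xi t z)‖ / c with hq
        have hq0 : 0 ≤ q := div_nonneg (norm_nonneg _) hch.le
        have hq2 : q ^ 2 * c ≤ X i (xi t z) := by
          have e3 : q ^ 2 * c = ‖Ou S t Φ i (xi t z) - En S t Φ i (xi t z)‖ ^ 2 / c := by
            rw [hq, div_pow]
            field_simp
          rw [e3, div_le_iff₀ hch]
          linarith
        have e4 : ‖fderiv ℝ (GG S t Φ i) z 1‖ ^ 2 ≤ 12 * m ^ 2 + 12 * m' ^ 2 +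
            108 * Kt i ^ 2 * q ^ 2 := by
          have e5 := pow_le_pow_left₀ (norm_nonneg _) h3 2
          nlinarith [e5, sq_nonneg (2 * m - 2 * m'), sq_nonneg (2 * m - 6 * Kt i * q),
            sq_nonneg (2 * m' - 6 * Kt i * q)]
        calc ‖fderiv ℝ (GG S t Φ i) z 1‖ ^ 2 * c
            ≤ (12 * m ^ 2 + 12 * m' ^ 2 + 108 * Kt i ^ 2 * q ^ 2) * c :=
              mul_le_mul_of_nonneg_right e4 hch.le
          _ = 12 * (m ^ 2 * c) + 12 * (m' ^ 2 * c) + 108 * Kt i ^ 2 * (q ^ 2 * c) := by ring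
          _ ≤ 12 * Sm S t Y i (xi t z) + 12 * Sm S t Y i (xi t z) +
              108 * Kt i ^ 2 * X i (xi t z) := by
              have e6 : 108 * Kt i ^ 2 * (q ^ 2 * c) ≤ 108 * Kt i ^ 2 * X i (xi t z) :=
                mul_le_mul_of_nonneg_left hq2 (by positivity)
              linarith
          _ = _ := by ring
      · rw [integral_add ((sm_int S t hY i).integrableOn.const_mul 24) ((hX i).const_mul _),
          integral_const_mul, integral_const_mul, sm_eq S t hp hY i]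
    refine (Finset.sum_le_sum fun i _ => h1 i).trans ?_
    rw [Finset.sum_add_distrib, ← Finset.mul_sum,
      ← Fintype.sum_prod_type (f := fun s : Side n =>
        ∫ x in Ioo (le S t s) (ri S t s), Y s x)]
    have h2 : ∑ i : Fin n, 108 * Kt i ^ 2 * ∫ x in Ioo (S.xl t i) (S.xr t i), X i x ≤
        108 * KK ^ 2 * ∑ i : Fin n, ∫ x in Ioo (S.xl t i) (S.xr t i), X i x := by
      rw [Finset.mul_sum]
      refine Finset.sum_le_sum fun i _ => mul_le_mul_of_nonneg_right ?_ (hIX i)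
      have := pow_le_pow_left₀ (hKt0 i) (hKti i) 2
      linarith
    have h3 : (0 : ℝ) ≤ KK ^ 2 := sq_nonneg _
    nlinarith [mul_nonneg h3 hSY, mul_nonneg hBB0 hSY, mul_nonneg hBB0 hSX]
  · -- the distance in the mean
    intro w hw hw1
    have hZ : ∀ s : Side n, IntegrableOn (fun x => ‖Φ s x - w s.1 x‖)
        (Ioo (le S t s) (ri S t s)) := by
      intro s
      have e1 : IntegrableOn (Φ s) (Ioo (le S t s) (ri S t s)) :=
        ((hl s).continuousOn.integrableOn_Icc).mono_set Ioo_subset_Icc_self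
      have e2 : IntegrableOn (w s.1) (Ioo (le S t s) (ri S t s)) := by
        refine Measure.integrableOn_of_bounded (M := 1) ?_ (hw s.1).aestronglyMeasurable
          (Eventually.of_forall fun x => hw1 s.1 x)
        rw [Real.volume_Ioo]
        exact ENNReal.ofReal_ne_top
      exact (e1.sub e2).norm
    have h1 : ∀ i, ∫ z in S.tri i, ‖GG S t Φ i z - w i (xi t z)‖ ≤
        2 * BB * ∑ k : Fin 3, ∫ x in Ioo (le S t (i, k)) (ri S t (i, k)),
          ‖Φ (i, k) x - w i x‖ := by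
      intro i
      set Z : Side n → ℝ → ℝ := fun s x => ‖Φ s x - w s.1 x‖ with hZd
      have hSI := sm_int S t hZ i
      have hN : IntegrableOn (fun x => 2 * (Sm S t Z i x * ch S t i x))
          (Ioo (S.xl t i) (S.xr t i)) := by
        have := (hSI.integrableOn (s := Icc (S.xl t i) (S.xr t i))).mul_continuousOn
          (ch_cont S t hc i) isCompact_Icc
        exact (this.mono_set Ioo_subset_Icc_self).const_mul 2
      refine (tri_le S t hc hf i hN (fun z => norm_nonneg _) ?_).trans ?_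
      · filter_upwards [xi_ae t (hgood i)] with z hz hzt hx1 hx2
        obtain ⟨s, s', hs, hs', hI, hJ, -⟩ := hz hx1 hx2
        have hch := c5 i _ hx1 hx2
        have hsr := (p2 s _).1 (Or.inl hI)
        have hsr' := (p2 s' _).1 (Or.inr hJ)
        have e1 : Z s (xi t z) ≤ Sm S t Z i (xi t z) :=
          sm_ge S t (Z := Z) (fun r _ _ _ => norm_nonneg _) hs hsr.1 hsr.2
        have e2 : Z s' (xi t z) ≤ Sm S t Z i (xi t z) :=
          sm_ge S t (Z := Z) (fun r _ _ _ => norm_nonneg _) hs' hsr'.1 hsr'.2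
        have e3 : 2 * (Sm S t Z i (xi t z) * ch S t i (xi t z)) / ch S t i (xi t z) =
            2 * Sm S t Z i (xi t z) := by
          field_simp
        rw [e3]
        have e4 : En S t Φ i (xi t z) = Φ s (xi t z) := by
          rw [← hs]; exact en_eq S t Φ hI
        have e5 : Ou S t Φ i (xi t z) = Φ s' (xi t z) := by
          rw [← hs']; exact ou_eq S t Φ hJ
        have e6 : Z s (xi t z) = ‖Φ s (xi t z) - w i (xi t z)‖ := by
          simp only [hZd, hs]
        have e7 : Z s' (xi t z) = ‖Φ s' (xi t z) - w i (xi t z)‖ := by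
          simp only [hZd, hs']
        obtain ⟨l1, l2⟩ := la_mem S t hc hzt
        have e8 : GG S t Φ i z - w i (xi t z) =
            ((1 - la S t i z : ℝ) : ℂ) * (Φ s (xi t z) - w i (xi t z)) +
            ((la S t i z : ℝ) : ℂ) * (Φ s' (xi t z) - w i (xi t z)) := by
          unfold GG
          rw [e4, e5]
          push_cast
          ring
        rw [e8]
        refine (norm_add_le _ _).trans ?_
        rw [norm_mul, norm_mul, Complex.norm_real, Complex.norm_real, Real.norm_eq_abs,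
          Real.norm_eq_abs, abs_of_nonneg l1, abs_of_nonneg (by linarith : 0 ≤ 1 - la S t i z),
          ← e6, ← e7]
        have n1 : 0 ≤ Z s (xi t z) := norm_nonneg _
        have n2 : 0 ≤ Z s' (xi t z) := norm_nonneg _
        nlinarith
      · have e1 : ∫ x in Ioo (S.xl t i) (S.xr t i), 2 * (Sm S t Z i x * ch S t i x) ≤
            ∫ x in Ioo (S.xl t i) (S.xr t i), 2 * BB * Sm S t Z i x := by
          refine setIntegral_mono_on hN (hSI.integrableOn.const_mul _) measurableSet_Ioo ?_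
          intro x hx
          have e2 : 0 ≤ Sm S t Z i x := by
            unfold Sm
            refine Finset.sum_nonneg fun k _ => ?_
            exact indicator_nonneg (fun y _ => norm_nonneg _) x
          have e3 := hB i x (Ioo_subset_Icc_self hx)
          have e4 := hBi i
          nlinarith [mul_le_mul_of_nonneg_left (e3.trans e4) e2]
        refine e1.trans (le_of_eq ?_)
        rw [integral_const_mul, sm_eq S t hp hZ i]
    refine (Finset.sum_le_sum fun i _ => h1 i).trans ?_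
    rw [← Finset.mul_sum, ← Fintype.sum_prod_type (f := fun s : Side n =>
        ∫ x in Ioo (le S t s) (ri S t s), ‖Φ s x - w s.1 x‖)]
    refine mul_le_mul_of_nonneg_right ?_ (Finset.sum_nonneg fun s _ =>
      integral_nonneg fun x => norm_nonneg _)
    have : (0 : ℝ) ≤ KK ^ 2 := sq_nonneg _
    linarith

end Pool.Agent.H54.BQ
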