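import Pool.Agent.H79.GT.Targets

/-!
# Row INT of the board bq, first part: the interpolation, its Lipschitz bound and the gluing
-/

set_option autoImplicit false

namespace Pool.Agent.H54.BQ

open MeasureTheory Set Filter Topology Pool.Agent.H79.GT Pool.Agent.H44.DU

open scoped Classical in
/-- the value at the entry -/
noncomputable def En {n : ℕ} (S : Surf n) (t : ℝ) (Φ : Side n → ℝ → ℂ) (i : Fin n) (x : ℝ) : ℂ :=
  ∑ k : Fin 3, if S.InI t (i, k) x then Φ (i, k) x else 0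

open scoped Classical in
/-- the value at the exit -/
noncomputable def Ou {n : ℕ} (S : Surf n) (t : ℝ) (Φ : Side n → ℝ → ℂ) (i : Fin n) (x : ℝ) : ℂ :=
  ∑ k : Fin 3, if S.InJ t (i, k) x then Φ (i, k) x else 0

/-- the relative height -/
noncomputable def la {n : ℕ} (S : Surf n) (t : ℝ) (i : Fin n) (z : ℂ) : ℝ :=
  (z.im - bot S t i (xi t z)) / ch S t i (xi t z)

/-- the interpolation -/
noncomputable def GG {n : ℕ} (S : Surf n) (t : ℝ) (Φ : Side n → ℝ → ℂ) (i : Fin n) (z : ℂ) : ℂ :=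
  (1 - (la S t i z : ℂ)) * En S t Φ i (xi t z) + (la S t i z : ℂ) * Ou S t Φ i (xi t z)

section basic

variable {n : ℕ} (S : Surf n) (t : ℝ) (Φ : Side n → ℝ → ℂ)

lemma en_eq {s : Side n} {x : ℝ} (h : S.InI t s x) : En S t Φ s.1 x = Φ s x := by
  classical
  unfold En
  rw [Finset.sum_eq_single s.2]
  · rw [if_pos h]
  · intro k _ hk
    rw [if_neg]
    intro h'
    exact hk (congrArg Prod.snd (S.entry_unique (r := (s.1, k)) (r' := s) rfl h' h))
  · intro h'
    exact absurd (Finset.mem_univ _) h'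

lemma ou_eq {s : Side n} {x : ℝ} (h : S.InJ t s x) : Ou S t Φ s.1 x = Φ s x := by
  classical
  unfold Ou
  rw [Finset.sum_eq_single s.2]
  · rw [if_pos h]
  · intro k _ hk
    rw [if_neg]
    intro h'
    exact hk (congrArg Prod.snd (S.exit_unique (r := (s.1, k)) (r' := s) rfl h' h))
  · intro h'
    exact absurd (Finset.mem_univ _) h'

lemma en_cases (i : Fin n) (x : ℝ) :
    (∃ s : Side n, s.1 = i ∧ S.InI t s x ∧ En S t Φ i x = Φ s x) ∨
    ((∀ s : Side n, s.1 = i → ¬ S.InI t s x) ∧ En S t Φ i x = 0) := by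
  classical
  by_cases h : ∃ s : Side n, s.1 = i ∧ S.InI t s x
  · obtain ⟨s, rfl, hs⟩ := h
    exact Or.inl ⟨s, rfl, hs, en_eq S t Φ hs⟩
  · push Not at h
    refine Or.inr ⟨h, ?_⟩
    unfold En
    refine Finset.sum_eq_zero fun k _ => ?_
    rw [if_neg (h (i, k) rfl)]

lemma ou_cases (i : Fin n) (x : ℝ) :
    (∃ s : Side n, s.1 = i ∧ S.InJ t s x ∧ Ou S t Φ i x = Φ s x) ∨
    ((∀ s : Side n, s.1 = i → ¬ S.InJ t s x) ∧ Ou S t Φ i x = 0) := by
  classical
  by_cases h : ∃ s : Side n, s.1 = i ∧ S.InJ t s x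
  · obtain ⟨s, rfl, hs⟩ := h
    exact Or.inl ⟨s, rfl, hs, ou_eq S t Φ hs⟩
  · push Not at h
    refine Or.inr ⟨h, ?_⟩
    unfold Ou
    refine Finset.sum_eq_zero fun k _ => ?_
    rw [if_neg (h (i, k) rfl)]

variable {Φ}

lemma en_norm (hn : ∀ s x, ‖Φ s x‖ ≤ 1) (i : Fin n) (x : ℝ) : ‖En S t Φ i x‖ ≤ 1 := by
  rcases en_cases S t Φ i x with ⟨s, _, _, h⟩ | ⟨_, h⟩
  · rw [h]; exact hn s x
  · rw [h, norm_zero]; exact zero_le_one

lemma ou_norm (hn : ∀ s x, ‖Φ s x‖ ≤ 1) (i : Fin n) (x : ℝ) : ‖Ou S t Φ i x‖ ≤ 1 := by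
  rcases ou_cases S t Φ i x with ⟨s, _, _, h⟩ | ⟨_, h⟩
  · rw [h]; exact hn s x
  · rw [h, norm_zero]; exact zero_le_one

/-- extension by zero -/
lemma ext_lip {K : NNReal} {a b : ℝ} {φ : ℝ → ℂ} (hab : a ≤ b)
    (hφ : LipschitzOnWith K φ (Icc a b)) (ha : φ a = 0) (hb : φ b = 0) {p : ℝ → Prop}
    [DecidablePred p] (hp : ∀ x, p x ↔ (a < x ∧ x < b)) :
    LipschitzWith K (fun x => if p x then φ x else 0) := by
  have he : ∀ x, (if p x then φ x else 0) = φ (projIcc a b hab x : ℝ) := by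
    intro x
    by_cases h : a < x ∧ x < b
    · rw [if_pos ((hp x).2 h), projIcc_of_mem hab ⟨h.1.le, h.2.le⟩]
    · rw [if_neg (fun h' => h ((hp x).1 h'))]
      rcases not_and_or.1 h with h1 | h1
      · rw [projIcc_of_le_left hab (not_lt.1 h1)]
        exact ha.symm
      · rw [projIcc_of_right_le hab (not_lt.1 h1)]
        exact hb.symm
  refine LipschitzWith.of_dist_le_mul fun x y => ?_
  simp only [he]
  have h1 := hφ.dist_le_mul _ (projIcc a b hab x).2 _ (projIcc a b hab y).2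
  have h2 : dist (projIcc a b hab x : ℝ) (projIcc a b hab y : ℝ) ≤ dist x y := by
    have := (LipschitzWith.projIcc hab).dist_le_mul x y
    rwa [NNReal.coe_one, one_mul] at this
  exact h1.trans (mul_le_mul_of_nonneg_left h2 K.coe_nonneg)

lemma le_le_ri (s : Side n) : le S t s ≤ ri S t s := (min_le_left _ _).trans (le_max_left _ _)

lemma inI_iff_of_lt {s : Side n} (h : xi t (S.P s) < xi t (S.Q s)) (x : ℝ) :
    S.InI t s x ↔ (le S t s < x ∧ x < ri S t s) := by
  rw [le, ri, min_eq_left h.le, max_eq_right h.le]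
  rfl

lemma inJ_iff_of_lt {s : Side n} (h : xi t (S.Q s) < xi t (S.P s)) (x : ℝ) :
    S.InJ t s x ↔ (le S t s < x ∧ x < ri S t s) := by
  rw [le, ri, min_eq_right h.le, max_eq_left h.le]
  rfl

variable {K : NNReal} {d : ℝ}

lemma en_lip (hd : 0 < d) (hl : ∀ s, LipschitzOnWith K (Φ s) (Icc (le S t s) (ri S t s)))
    (hv : ∀ s x, le S t s ≤ x → x ≤ ri S t s → (x ≤ le S t s + d ∨ ri S t s - d ≤ x) →
      Φ s x = 0) (i : Fin n) (x y : ℝ) : ‖En S t Φ i x - En S t Φ i y‖ ≤ 3 * K * |x - y| := by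
  classical
  have h1 : ∀ k : Fin 3, LipschitzWith K
      (fun x => if S.InI t (i, k) x then Φ (i, k) x else 0) := by
    intro k
    by_cases h : xi t (S.P (i, k)) < xi t (S.Q (i, k))
    · have h0 := le_le_ri S t (i, k)
      refine ext_lip h0 (hl (i, k)) ?_ ?_ (inI_iff_of_lt S t h)
      · exact hv (i, k) _ le_rfl h0 (Or.inl (by linarith))
      · exact hv (i, k) _ h0 le_rfl (Or.inr (by linarith))
    · have : (fun x => if S.InI t (i, k) x then Φ (i, k) x else 0) = fun _ => (0 : ℂ) := by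
        funext x
        rw [if_neg]
        intro h'
        exact h (h'.1.trans h'.2)
      rw [this]
      exact LipschitzWith.const' 0
  unfold En
  rw [← Finset.sum_sub_distrib]
  refine (norm_sum_le _ _).trans ?_
  have h2 : ∀ k ∈ (Finset.univ : Finset (Fin 3)),
      ‖(if S.InI t (i, k) x then Φ (i, k) x else 0) -
        (if S.InI t (i, k) y then Φ (i, k) y else 0)‖ ≤ K * |x - y| := by
    intro k _
    have := (h1 k).dist_le_mul x y
    rwa [dist_eq_norm, Real.dist_eq] at this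
  refine (Finset.sum_le_card_nsmul _ _ _ h2).trans (le_of_eq ?_)
  rw [Finset.card_univ, Fintype.card_fin, nsmul_eq_mul]
  push_cast
  ring

lemma ou_lip (hd : 0 < d) (hl : ∀ s, LipschitzOnWith K (Φ s) (Icc (le S t s) (ri S t s)))
    (hv : ∀ s x, le S t s ≤ x → x ≤ ri S t s → (x ≤ le S t s + d ∨ ri S t s - d ≤ x) →
      Φ s x = 0) (i : Fin n) (x y : ℝ) : ‖Ou S t Φ i x - Ou S t Φ i y‖ ≤ 3 * K * |x - y| := by
  classical
  have h1 : ∀ k : Fin 3, LipschitzWith K
      (fun x => if S.InJ t (i, k) x then Φ (i, k) x else 0) := by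
    intro k
    by_cases h : xi t (S.Q (i, k)) < xi t (S.P (i, k))
    · have h0 := le_le_ri S t (i, k)
      refine ext_lip h0 (hl (i, k)) ?_ ?_ (inJ_iff_of_lt S t h)
      · exact hv (i, k) _ le_rfl h0 (Or.inl (by linarith))
      · exact hv (i, k) _ h0 le_rfl (Or.inr (by linarith))
    · have : (fun x => if S.InJ t (i, k) x then Φ (i, k) x else 0) = fun _ => (0 : ℂ) := by
        funext x
        rw [if_neg]
        intro h'
        exact h (h'.1.trans h'.2)
      rw [this]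
      exact LipschitzWith.const' 0
  unfold Ou
  rw [← Finset.sum_sub_distrib]
  refine (norm_sum_le _ _).trans ?_
  have h2 : ∀ k ∈ (Finset.univ : Finset (Fin 3)),
      ‖(if S.InJ t (i, k) x then Φ (i, k) x else 0) -
        (if S.InJ t (i, k) y then Φ (i, k) y else 0)‖ ≤ K * |x - y| := by
    intro k _
    have := (h1 k).dist_le_mul x y
    rwa [dist_eq_norm, Real.dist_eq] at this
  refine (Finset.sum_le_card_nsmul _ _ _ h2).trans (le_of_eq ?_)
  rw [Finset.card_univ, Fintype.card_fin, nsmul_eq_mul]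
  push_cast
  ring

/-- the values vanish near the ends of the triangle -/
lemma en_van (hp : T_PART)
    (hv : ∀ s x, le S t s ≤ x → x ≤ ri S t s → (x ≤ le S t s + d ∨ ri S t s - d ≤ x) →
      Φ s x = 0) (i : Fin n) (x : ℝ) (hx : x ≤ S.xl t i + d ∨ S.xr t i - d ≤ x) :
    En S t Φ i x = 0 := by
  rcases en_cases S t Φ i x with ⟨s, rfl, h1, h2⟩ | ⟨_, h2⟩
  · rw [h2]
    obtain ⟨-, p2, p3, -, -⟩ := hp n S t
    have h3 := (p2 s x).1 (Or.inl h1)
    have h4 := p3 s
    refine hv s x h3.1.le h3.2.le (hx.imp (fun h => ?_) (fun h => ?_))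
    · linarith [h4.1]
    · linarith [h4.2.2]
  · exact h2

lemma ou_van (hp : T_PART)
    (hv : ∀ s x, le S t s ≤ x → x ≤ ri S t s → (x ≤ le S t s + d ∨ ri S t s - d ≤ x) →
      Φ s x = 0) (i : Fin n) (x : ℝ) (hx : x ≤ S.xl t i + d ∨ S.xr t i - d ≤ x) :
    Ou S t Φ i x = 0 := by
  rcases ou_cases S t Φ i x with ⟨s, rfl, h1, h2⟩ | ⟨_, h2⟩
  · rw [h2]
    obtain ⟨-, p2, p3, -, -⟩ := hp n S t
    have h3 := (p2 s x).1 (Or.inr h1)
    have h4 := p3 s
    refine hv s x h3.1.le h3.2.le (hx.imp (fun h => ?_) (fun h => ?_))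
    · linarith [h4.1]
    · linarith [h4.2.2]
  · exact h2

/-- the exit value on the closed range of an exit side -/
lemma ou_closed (hd : 0 < d)
    (hv : ∀ s x, le S t s ≤ x → x ≤ ri S t s → (x ≤ le S t s + d ∨ ri S t s - d ≤ x) →
      Φ s x = 0) {s : Side n} (hs : xi t (S.Q s) < xi t (S.P s)) {x : ℝ}
    (h1 : le S t s ≤ x) (h2 : x ≤ ri S t s) : Ou S t Φ s.1 x = Φ s x := by
  rcases h1.lt_or_eq with h1' | h1'
  · rcases h2.lt_or_eq with h2' | h2'
    · exact ou_eq S t Φ ((inJ_iff_of_lt S t hs x).2 ⟨h1', h2'⟩)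
    · rw [hv s x h1 h2 (Or.inr (by linarith))]
      rcases ou_cases S t Φ s.1 x with ⟨r, hr, hr1, hr2⟩ | ⟨_, h⟩
      · exfalso
        have ha : max (le S t s) (xi t (S.Q r)) < x := max_lt h1' hr1.1
        obtain ⟨y, hy1, hy2⟩ := exists_between ha
        have e1 : S.InJ t s y := (inJ_iff_of_lt S t hs y).2
          ⟨(le_max_left _ _).trans_lt hy1, by linarith⟩
        have e2 : S.InJ t r y := ⟨(le_max_right _ _).trans_lt hy1, hy2.trans hr1.2⟩
        have e3 := S.exit_unique hr e2 e1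
        rw [e3] at hr1
        have := (inJ_iff_of_lt S t hs x).1 hr1
        linarith [this.2]
      · exact h
  · rw [hv s x h1 h2 (Or.inl (by linarith))]
    rcases ou_cases S t Φ s.1 x with ⟨r, hr, hr1, hr2⟩ | ⟨_, h⟩
    · exfalso
      have hlr : le S t s < ri S t s := by
        rw [le, ri, min_eq_right hs.le, max_eq_left hs.le]; exact hs
      have ha : x < min (ri S t s) (xi t (S.P r)) := lt_min (by rw [← h1']; exact hlr) hr1.2
      obtain ⟨y, hy1, hy2⟩ := exists_between ha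
      have e1 : S.InJ t s y := (inJ_iff_of_lt S t hs y).2
        ⟨by rw [h1']; exact hy1, hy2.trans_le (min_le_left _ _)⟩
      have e2 : S.InJ t r y := ⟨hr1.1.trans hy1, hy2.trans_le (min_le_right _ _)⟩
      have e3 := S.exit_unique hr e2 e1
      rw [e3] at hr1
      have := (inJ_iff_of_lt S t hs x).1 hr1
      linarith [this.1]
    · exact h

/-- the entry value on the closed range of an entry side -/
lemma en_closed (hd : 0 < d)
    (hv : ∀ s x, le S t s ≤ x → x ≤ ri S t s → (x ≤ le S t s + d ∨ ri S t s - d ≤ x) →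
      Φ s x = 0) {s : Side n} (hs : xi t (S.P s) < xi t (S.Q s)) {x : ℝ}
    (h1 : le S t s ≤ x) (h2 : x ≤ ri S t s) : En S t Φ s.1 x = Φ s x := by
  rcases h1.lt_or_eq with h1' | h1'
  · rcases h2.lt_or_eq with h2' | h2'
    · exact en_eq S t Φ ((inI_iff_of_lt S t hs x).2 ⟨h1', h2'⟩)
    · rw [hv s x h1 h2 (Or.inr (by linarith))]
      rcases en_cases S t Φ s.1 x with ⟨r, hr, hr1, hr2⟩ | ⟨_, h⟩
      · exfalso
        have ha : max (le S t s) (xi t (S.P r)) < x := max_lt h1' hr1.1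
        obtain ⟨y, hy1, hy2⟩ := exists_between ha
        have e1 : S.InI t s y := (inI_iff_of_lt S t hs y).2
          ⟨(le_max_left _ _).trans_lt hy1, by linarith⟩
        have e2 : S.InI t r y := ⟨(le_max_right _ _).trans_lt hy1, hy2.trans hr1.2⟩
        have e3 := S.entry_unique hr e2 e1
        rw [e3] at hr1
        have := (inI_iff_of_lt S t hs x).1 hr1
        linarith [this.2]
      · exact h
  · rw [hv s x h1 h2 (Or.inl (by linarith))]
    rcases en_cases S t Φ s.1 x with ⟨r, hr, hr1, hr2⟩ | ⟨_, h⟩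
    · exfalso
      have hlr : le S t s < ri S t s := by
        rw [le, ri, min_eq_left hs.le, max_eq_right hs.le]; exact hs
      have ha : x < min (ri S t s) (xi t (S.Q r)) := lt_min (by rw [← h1']; exact hlr) hr1.2
      obtain ⟨y, hy1, hy2⟩ := exists_between ha
      have e1 : S.InI t s y := (inI_iff_of_lt S t hs y).2
        ⟨by rw [h1']; exact hy1, hy2.trans_le (min_le_left _ _)⟩
      have e2 : S.InI t r y := ⟨hr1.1.trans hy1, hy2.trans_le (min_le_right _ _)⟩
      have e3 := S.entry_unique hr e2 e1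
      rw [e3] at hr1
      have := (inI_iff_of_lt S t hs x).1 hr1
      linarith [this.1]
    · exact h

end basic

end Pool.Agent.H54.BQ
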