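import Pool.Agent.H54.BQ.INT1

/-!
# Row INT of the board bq, second part: sides, gluing and the Lipschitz bound
-/

set_option autoImplicit false

namespace Pool.Agent.H54.BQ

open MeasureTheory Set Filter Topology Pool.Agent.H79.GT Pool.Agent.H44.DU

section sides

variable {n : ℕ} (S : Surf n) (t : ℝ) {Φ : Side n → ℝ → ℂ}

lemma xi_smul_add (a b : ℝ) (z w : ℂ) : xi t (a • z + b • w) = a * xi t z + b * xi t w := by
  rw [xi_add, Complex.real_smul, Complex.real_smul, xi_mul, xi_mul]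

lemma xi_seg {s : Side n} {z : ℂ} (hz : z ∈ segment ℝ (S.P s) (S.Q s)) :
    le S t s ≤ xi t z ∧ xi t z ≤ ri S t s := by
  obtain ⟨a, b, ha, hb, hab, rfl⟩ := hz
  rw [xi_smul_add]
  have h1 : le S t s ≤ xi t (S.P s) := min_le_left _ _
  have h2 : le S t s ≤ xi t (S.Q s) := min_le_right _ _
  have h3 : xi t (S.P s) ≤ ri S t s := le_max_left _ _
  have h4 : xi t (S.Q s) ≤ ri S t s := le_max_right _ _
  constructor
  · calc le S t s = a * le S t s + b * le S t s := by rw [← add_mul, hab, one_mul]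
      _ ≤ _ := add_le_add (mul_le_mul_of_nonneg_left h1 ha) (mul_le_mul_of_nonneg_left h2 hb)
  · calc a * xi t (S.P s) + b * xi t (S.Q s) ≤ a * ri S t s + b * ri S t s :=
        add_le_add (mul_le_mul_of_nonneg_left h3 ha) (mul_le_mul_of_nonneg_left h4 hb)
      _ = ri S t s := by rw [← add_mul, hab, one_mul]

lemma glue_seg {s : Side n} {z : ℂ} (hz : z ∈ segment ℝ (S.P s) (S.Q s)) :
    (S.a s : ℂ) * z + S.b s ∈ segment ℝ (S.P (S.gl s)) (S.Q (S.gl s)) := by
  obtain ⟨a, b, ha, hb, hab, rfl⟩ := hz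
  refine ⟨b, a, hb, ha, by linarith, ?_⟩
  rw [S.P_gl, S.Q_gl]
  simp only [Complex.real_smul]
  have h : (b : ℂ) = 1 - a := by
    have : b = 1 - a := by linarith
    rw [this]
    push_cast
    ring
  rw [h]
  ring

lemma xi_glue (s : Side n) (z : ℂ) : xi t ((S.a s : ℂ) * z + S.b s) = S.mv t s (xi t z) := by
  rw [xi_add, xi_mul, Surf.mv]

lemma pt_cont {s : Side n} : Continuous (fun x => (S.pt t s x).im) := by
  unfold Surf.pt Surf.lam
  simp only [Complex.add_im, Complex.mul_im, Complex.ofReal_re, Complex.ofReal_im, zero_mul,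
    add_zero]
  exact continuous_const.add (((continuous_const.sub continuous_id).div_const _).mul
    continuous_const)

/-- the height of the exit on the closed range -/
lemma top_closed (hc : T_CH) (hp : T_PART) {s : Side n} (hs : xi t (S.Q s) < xi t (S.P s))
    {x : ℝ} (h1 : le S t s ≤ x) (h2 : x ≤ ri S t s) :
    top S t s.1 x = (S.pt t s x).im := by
  have hlr : le S t s < ri S t s := by
    rw [le, ri, min_eq_right hs.le, max_eq_left hs.le]; exact hs
  obtain ⟨-, -, -, c4, -, -, -, -, -, K, cK, -⟩ := hc n S t s.1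
  obtain ⟨-, p2, p3, -, -⟩ := hp n S t
  have hsub : Icc (le S t s) (ri S t s) ⊆ Icc (S.xl t s.1) (S.xr t s.1) :=
    Icc_subset_Icc (p3 s).1 (p3 s).2.2
  have hE : EqOn (top S t s.1) (fun x => (S.pt t s x).im) (Ioo (le S t s) (ri S t s)) := by
    intro y hy
    exact c4 s rfl y ((inJ_iff_of_lt S t hs y).2 hy)
  have := hE.of_subset_closure (cK.continuousOn.mono hsub) (pt_cont S t).continuousOn
    Ioo_subset_Icc_self (by rw [closure_Ioo hlr.ne])
  exact this ⟨h1, h2⟩

/-- the height of the entry on the closed range -/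
lemma bot_closed (hc : T_CH) (hp : T_PART) {s : Side n} (hs : xi t (S.P s) < xi t (S.Q s))
    {x : ℝ} (h1 : le S t s ≤ x) (h2 : x ≤ ri S t s) :
    bot S t s.1 x = (S.pt t s x).im := by
  have hlr : le S t s < ri S t s := by
    rw [le, ri, min_eq_left hs.le, max_eq_right hs.le]; exact hs
  obtain ⟨-, -, c3, -, -, -, -, -, -, K, -, cK⟩ := hc n S t s.1
  obtain ⟨-, p2, p3, -, -⟩ := hp n S t
  have hsub : Icc (le S t s) (ri S t s) ⊆ Icc (S.xl t s.1) (S.xr t s.1) :=
    Icc_subset_Icc (p3 s).1 (p3 s).2.2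
  have hE : EqOn (bot S t s.1) (fun x => (S.pt t s x).im) (Ioo (le S t s) (ri S t s)) := by
    intro y hy
    exact c3 s rfl y ((inI_iff_of_lt S t hs y).2 hy)
  have := hE.of_subset_closure (cK.continuousOn.mono hsub) (pt_cont S t).continuousOn
    Ioo_subset_Icc_self (by rw [closure_Ioo hlr.ne])
  exact this ⟨h1, h2⟩

lemma la_mem (hc : T_CH) {i : Fin n} {z : ℂ} (hz : z ∈ S.tri i) :
    0 ≤ la S t i z ∧ la S t i z ≤ 1 := by
  obtain ⟨-, c2, -, -, -, c6, -⟩ := hc n S t i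
  obtain ⟨-, -, h3, h4⟩ := (c2 z).1 hz
  have h5 := c6 (xi t z)
  unfold la
  refine ⟨div_nonneg (by linarith) h5, ?_⟩
  refine div_le_one_of_le₀ ?_ h5
  unfold ch
  linarith

lemma gg_van (hp : T_PART) {d : ℝ}
    (hv : ∀ s x, le S t s ≤ x → x ≤ ri S t s → (x ≤ le S t s + d ∨ ri S t s - d ≤ x) →
      Φ s x = 0) (i : Fin n) (z : ℂ)
    (hx : xi t z ≤ S.xl t i + d ∨ S.xr t i - d ≤ xi t z) : GG S t Φ i z = 0 := by
  unfold GG
  rw [en_van S t hp hv i _ hx, ou_van S t hp hv i _ hx]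
  ring

/-- the interpolation on the sides -/
lemma gg_side (hc : T_CH) (hp : T_PART) {d : ℝ} (hd : 0 < d)
    (hv : ∀ s x, le S t s ≤ x → x ≤ ri S t s → (x ≤ le S t s + d ∨ ri S t s - d ≤ x) →
      Φ s x = 0) {s : Side n} {z : ℂ} (hz : z ∈ segment ℝ (S.P s) (S.Q s)) :
    GG S t Φ s.1 z = Φ s (xi t z) := by
  obtain ⟨h1, h2⟩ := xi_seg S t hz
  obtain ⟨-, p2, p3, p4, p5⟩ := hp n S t
  -- the ends of the range of the triangle
  by_cases hout : xi t z ≤ S.xl t s.1 ∨ S.xr t s.1 ≤ xi t z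
  · rw [gg_van S t hp hv s.1 z (hout.imp (fun h => by linarith) (fun h => by linarith))]
    refine (hv s _ h1 h2 (hout.imp (fun h => ?_) (fun h => ?_))).symm
    · linarith [(p3 s).1]
    · linarith [(p3 s).2.2]
  push Not at hout
  have hlr : le S t s < ri S t s := by
    rcases (p3 s).2.1.lt_or_eq with h | h
    · exact h
    · exfalso
      rcases p4 s h with h' | h'
      · linarith [hout.1]
      · linarith [hout.2]
  obtain ⟨-, -, hzp⟩ := p5 s hlr z hz
  obtain ⟨c1, c2, c3, c4, c5, c6, c7, -⟩ := hc n S t s.1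
  have hch := c5 _ hout.1 hout.2
  rcases lt_trichotomy (xi t (S.P s)) (xi t (S.Q s)) with hs | hs | hs
  · -- entry side
    have hb := bot_closed S t hc hp hs h1 h2
    rw [← hzp] at hb
    have hla : la S t s.1 z = 0 := by
      unfold la
      rw [hb, sub_self, zero_div]
    unfold GG
    rw [hla, en_closed S t hd hv hs h1 h2]
    push_cast
    ring
  · exfalso
    rw [le, ri, hs, min_self, max_self] at hlr
    exact lt_irrefl _ hlr
  · -- exit side
    have hb := top_closed S t hc hp hs h1 h2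
    rw [← hzp] at hb
    have hla : la S t s.1 z = 1 := by
      unfold la
      rw [div_eq_one_iff_eq hch.ne', ch, hb]
    unfold GG
    rw [hla, ou_closed S t hd hv hs h1 h2]
    push_cast
    ring

lemma gg_glue (hc : T_CH) (hp : T_PART) {d : ℝ} (hd : 0 < d) {ζ : Side n → ℂ}
    (hv : ∀ s x, le S t s ≤ x → x ≤ ri S t s → (x ≤ le S t s + d ∨ ri S t s - d ≤ x) →
      Φ s x = 0)
    (hg : ∀ s x, le S t s ≤ x → x ≤ ri S t s → Φ (S.gl s) (S.mv t s x) = ζ s * Φ s x)
    (s : Side n) (z : ℂ) (hz : z ∈ segment ℝ (S.P s) (S.Q s)) :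
    GG S t Φ (S.gl s).1 (S.a s * z + S.b s) = ζ s * GG S t Φ s.1 z := by
  rw [gg_side S t hc hp hd hv hz, gg_side S t hc hp hd hv (glue_seg S hz), xi_glue]
  obtain ⟨h1, h2⟩ := xi_seg S t hz
  exact hg s _ h1 h2

lemma gg_norm (hc : T_CH) (hn : ∀ s x, ‖Φ s x‖ ≤ 1) (i : Fin n) {z : ℂ} (hz : z ∈ S.tri i) :
    ‖GG S t Φ i z‖ ≤ 1 := by
  obtain ⟨h1, h2⟩ := la_mem S t hc hz
  unfold GG
  have e1 := en_norm S t hn i (xi t z)
  have e2 := ou_norm S t hn i (xi t z)
  refine (norm_add_le _ _).trans ?_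
  rw [norm_mul, norm_mul]
  have h3 : ‖(1 - (la S t i z : ℂ))‖ = 1 - la S t i z := by
    rw [← Complex.ofReal_one, ← Complex.ofReal_sub, Complex.norm_real, Real.norm_eq_abs,
      abs_of_nonneg (by linarith)]
  have h4 : ‖(la S t i z : ℂ)‖ = la S t i z := by
    rw [Complex.norm_real, Real.norm_eq_abs, abs_of_nonneg h1]
  rw [h3, h4]
  nlinarith [norm_nonneg (En S t Φ i (xi t z)), norm_nonneg (Ou S t Φ i (xi t z))]

lemma xi_diff (z w : ℂ) : |xi t z - xi t w| ≤ (1 + |t|) * ‖z - w‖ := by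
  rw [← xi_sub, xi]
  have h1 := Complex.abs_re_le_norm (z - w)
  have h2 := Complex.abs_im_le_norm (z - w)
  calc |(z - w).re - t * (z - w).im| ≤ |(z - w).re| + |t * (z - w).im| := abs_sub _ _
    _ = |(z - w).re| + |t| * |(z - w).im| := by rw [abs_mul]
    _ ≤ ‖z - w‖ + |t| * ‖z - w‖ := add_le_add h1 (mul_le_mul_of_nonneg_left h2 (abs_nonneg t))
    _ = _ := by ring

end sides

end Pool.Agent.H54.BQ
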