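import Pool.Agent.H54.BQ.INT2

/-!
# Row INT of the board bq, third part: the Lipschitz bound and the derivatives
-/

set_option autoImplicit false

namespace Pool.Agent.H54.BQ

open MeasureTheory Set Filter Topology Pool.Agent.H79.GT Pool.Agent.H44.DU

lemma quot_bound {a b a' b' c δ ε : ℝ} (ha : 0 ≤ a) (hab : a ≤ b) (hc : 0 < c) (hb : c ≤ b)
    (hb' : c ≤ b') (h1 : |a - a'| ≤ δ) (h2 : |b - b'| ≤ ε) :
    |a / b - a' / b'| ≤ (δ + ε) / c := by
  have hb0 : 0 < b := hc.trans_le hb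
  have hb0' : 0 < b' := hc.trans_le hb'
  have hδ : 0 ≤ δ := (abs_nonneg _).trans h1
  have hε : 0 ≤ ε := (abs_nonneg _).trans h2
  have e1 : a / b - a' / b' = (b * (a - a') - a * (b - b')) / (b * b') := by
    field_simp
    ring
  rw [e1, abs_div, abs_of_pos (mul_pos hb0 hb0'), div_le_div_iff₀ (mul_pos hb0 hb0') hc]
  have e2 : |b * (a - a') - a * (b - b')| ≤ b * (δ + ε) := by
    refine (abs_sub _ _).trans ?_
    rw [abs_mul, abs_mul, abs_of_pos hb0, abs_of_nonneg ha]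
    have h3 : b * |a - a'| ≤ b * δ := mul_le_mul_of_nonneg_left h1 hb0.le
    have h4 : a * |b - b'| ≤ b * ε := mul_le_mul hab h2 (abs_nonneg _) hb0.le
    linarith
  calc |b * (a - a') - a * (b - b')| * c ≤ (b * (δ + ε)) * c :=
        mul_le_mul_of_nonneg_right e2 hc.le
    _ ≤ (b * (δ + ε)) * b' := mul_le_mul_of_nonneg_left hb' (by positivity)
    _ = _ := by ring

/-- the derivative in one direction -/
lemma fd_bound {G : ℂ → ℂ} {z v : ℂ} {A : ℝ} (hA : 0 ≤ A)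
    (h : ∀ᶠ r : ℝ in 𝓝 0, ‖G (z + r * v) - G z‖ ≤ A * |r|) : ‖fderiv ℝ G z v‖ ≤ A := by
  by_cases hd : DifferentiableAt ℝ G z
  · have h2 : HasDerivAt (fun r : ℝ => z + (r : ℂ) * v) v 0 := by
      have h3 : HasDerivAt (fun r : ℝ => (r : ℂ)) 1 0 := Complex.ofRealCLM.hasDerivAt
      have h4 := (h3.mul_const v).const_add z
      simpa using h4
    have h5 : HasDerivAt (fun r : ℝ => G (z + (r : ℂ) * v)) (fderiv ℝ G z v) 0 := by
      refine HasFDerivAt.comp_hasDerivAt_of_eq (l := G) (0 : ℝ) hd.hasFDerivAt h2 ?_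
      simp
    refine h5.le_of_lip' hA ?_
    filter_upwards [h] with r hr
    simpa using hr
  · rw [fderiv_zero_of_not_differentiableAt hd]
    simpa using hA

section deriv

variable {n : ℕ} (S : Surf n) (t : ℝ) {Φ : Side n → ℝ → ℂ}

lemma gg_diff (i : Fin n) (z w : ℂ) : GG S t Φ i z - GG S t Φ i w =
    (1 - (la S t i w : ℂ)) * (En S t Φ i (xi t z) - En S t Φ i (xi t w)) +
    (la S t i w : ℂ) * (Ou S t Φ i (xi t z) - Ou S t Φ i (xi t w)) +
    ((la S t i z : ℂ) - (la S t i w : ℂ)) * (Ou S t Φ i (xi t z) - En S t Φ i (xi t z)) := by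
  unfold GG
  ring

lemma norm_diff (i : Fin n) (z w : ℂ) : ‖GG S t Φ i z - GG S t Φ i w‖ ≤
    |1 - la S t i w| * ‖En S t Φ i (xi t z) - En S t Φ i (xi t w)‖ +
    |la S t i w| * ‖Ou S t Φ i (xi t z) - Ou S t Φ i (xi t w)‖ +
    |la S t i z - la S t i w| * ‖Ou S t Φ i (xi t z) - En S t Φ i (xi t z)‖ := by
  rw [gg_diff]
  refine (norm_add₃_le).trans ?_
  rw [norm_mul, norm_mul, norm_mul]
  have h1 : ‖(1 - (la S t i w : ℂ))‖ = |1 - la S t i w| := by
    rw [← Complex.ofReal_one, ← Complex.ofReal_sub, Complex.norm_real, Real.norm_eq_abs]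
  have h2 : ‖((la S t i z : ℂ) - (la S t i w : ℂ))‖ = |la S t i z - la S t i w| := by
    rw [← Complex.ofReal_sub, Complex.norm_real, Real.norm_eq_abs]
  have h3 : ‖(la S t i w : ℂ)‖ = |la S t i w| := by
    rw [Complex.norm_real, Real.norm_eq_abs]
  rw [h1, h2, h3]

/-- the data of the chords -/
lemma ch_data (hc : T_CH) (i : Fin n) : ∃ K : ℝ, 0 ≤ K ∧
    (∀ x y, x ∈ Icc (S.xl t i) (S.xr t i) → y ∈ Icc (S.xl t i) (S.xr t i) →
      |bot S t i x - bot S t i y| ≤ K * |x - y|) ∧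
    (∀ x y, x ∈ Icc (S.xl t i) (S.xr t i) → y ∈ Icc (S.xl t i) (S.xr t i) →
      |ch S t i x - ch S t i y| ≤ 2 * K * |x - y|) := by
  obtain ⟨-, -, -, -, -, -, -, -, -, K, k1, k2⟩ := hc n S t i
  have e1 : ∀ x y, x ∈ Icc (S.xl t i) (S.xr t i) → y ∈ Icc (S.xl t i) (S.xr t i) →
      |bot S t i x - bot S t i y| ≤ K * |x - y| := by
    intro x y hx hy
    have := k2.dist_le_mul x hx y hy
    rwa [Real.dist_eq, Real.dist_eq] at this
  have e2 : ∀ x y, x ∈ Icc (S.xl t i) (S.xr t i) → y ∈ Icc (S.xl t i) (S.xr t i) →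
      |top S t i x - top S t i y| ≤ K * |x - y| := by
    intro x y hx hy
    have := k1.dist_le_mul x hx y hy
    rwa [Real.dist_eq, Real.dist_eq] at this
  refine ⟨K, K.coe_nonneg, e1, fun x y hx hy => ?_⟩
  unfold ch
  have h1 := e1 x y hx hy
  have h2 := e2 x y hx hy
  rw [abs_le] at h1 h2 ⊢
  constructor <;> linarith [h1.1, h1.2, h2.1, h2.2]

lemma ch_cont (hc : T_CH) (i : Fin n) : ContinuousOn (ch S t i) (Icc (S.xl t i) (S.xr t i)) := by
  obtain ⟨-, -, -, -, -, -, -, -, -, K, k1, k2⟩ := hc n S t i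
  exact k1.continuousOn.sub k2.continuousOn

/-- the Lipschitz bound on one triangle -/
lemma gg_lip1 (hc : T_CH) (hp : T_PART) {K : NNReal} {d : ℝ} (hd : 0 < d)
    (hl : ∀ s, LipschitzOnWith K (Φ s) (Icc (le S t s) (ri S t s)))
    (hv : ∀ s x, le S t s ≤ x → x ≤ ri S t s → (x ≤ le S t s + d ∨ ri S t s - d ≤ x) →
      Φ s x = 0) (hn : ∀ s x, ‖Φ s x‖ ≤ 1) (i : Fin n) :
    ∃ L : ℝ, 0 ≤ L ∧ ∀ z ∈ S.tri i, ∀ w ∈ S.tri i,
      ‖GG S t Φ i z - GG S t Φ i w‖ ≤ L * ‖z - w‖ := by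
  obtain ⟨c1, c2, c3, c4, c5, c6, -⟩ := hc n S t i
  obtain ⟨Kt, hKt, k1, k2⟩ := ch_data S t hc i
  -- the lower bound of the chord
  obtain ⟨c, hc0, hcJ⟩ : ∃ c > (0 : ℝ), ∀ x, S.xl t i + d / 2 ≤ x → x ≤ S.xr t i - d / 2 →
      c ≤ ch S t i x := by
    by_cases hJ : (Icc (S.xl t i + d / 2) (S.xr t i - d / 2)).Nonempty
    · have hsub : Icc (S.xl t i + d / 2) (S.xr t i - d / 2) ⊆ Icc (S.xl t i) (S.xr t i) :=
        Icc_subset_Icc (by linarith) (by linarith)
      obtain ⟨x0, hx0, hm⟩ := isCompact_Icc.exists_isMinOn hJ ((ch_cont S t hc i).mono hsub)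
      refine ⟨ch S t i x0, c5 x0 (by linarith [hx0.1]) (by linarith [hx0.2]), ?_⟩
      intro x h1 h2
      exact hm ⟨h1, h2⟩
    · refine ⟨1, one_pos, fun x h1 h2 => ?_⟩
      exact absurd ⟨x, h1, h2⟩ hJ
  set T : ℝ := 1 + |t| with hT
  have hT0 : 0 ≤ T := by positivity
  refine ⟨3 * K * T + 2 * ((3 * Kt * T + 1) / c) + 2 / d * T, by positivity, ?_⟩
  have hfar : ∀ z ∈ S.tri i, ∀ w ∈ S.tri i,
      (xi t z < S.xl t i + d / 2 ∨ S.xr t i - d / 2 < xi t z) →
      ‖GG S t Φ i z - GG S t Φ i w‖ ≤ 2 / d * T * ‖z - w‖ := by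
    intro z hz w hw hx
    have h0 : GG S t Φ i z = 0 :=
      gg_van S t hp hv i z (hx.imp (fun h => by linarith) (fun h => by linarith))
    by_cases hy : xi t w ≤ S.xl t i + d ∨ S.xr t i - d ≤ xi t w
    · rw [h0, gg_van S t hp hv i w hy, sub_zero, norm_zero]
      positivity
    · push Not at hy
      have h1 : d / 2 ≤ |xi t z - xi t w| := by
        rcases hx with h | h
        · rw [abs_sub_comm]
          exact le_trans (by linarith [hy.1]) (le_abs_self _)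
        · exact le_trans (by linarith [hy.2]) (le_abs_self _)
      rw [h0, zero_sub, norm_neg]
      have h2 := gg_norm S t hc hn i hw
      have h3 := xi_diff t z w
      calc ‖GG S t Φ i w‖ ≤ 1 := h2
        _ = 2 / d * (d / 2) := by field_simp
        _ ≤ 2 / d * (T * ‖z - w‖) :=
          mul_le_mul_of_nonneg_left (h1.trans h3) (by positivity)
        _ = _ := by ring
  intro z hz w hw
  have hzw := norm_nonneg (z - w)
  by_cases hx : xi t z < S.xl t i + d / 2 ∨ S.xr t i - d / 2 < xi t z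
  · refine (hfar z hz w hw hx).trans (mul_le_mul_of_nonneg_right ?_ hzw)
    have : 0 ≤ 3 * K * T + 2 * ((3 * Kt * T + 1) / c) := by positivity
    linarith
  by_cases hy : xi t w < S.xl t i + d / 2 ∨ S.xr t i - d / 2 < xi t w
  · rw [norm_sub_rev (GG S t Φ i z), norm_sub_rev z]
    refine (hfar w hw z hz hy).trans (mul_le_mul_of_nonneg_right ?_ (norm_nonneg _))
    have : 0 ≤ 3 * K * T + 2 * ((3 * Kt * T + 1) / c) := by positivity
    linarith
  push Not at hx hy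
  have hxI : xi t z ∈ Icc (S.xl t i) (S.xr t i) := ⟨by linarith [hx.1], by linarith [hx.2]⟩
  have hyI : xi t w ∈ Icc (S.xl t i) (S.xr t i) := ⟨by linarith [hy.1], by linarith [hy.2]⟩
  obtain ⟨-, -, z3, z4⟩ := (c2 z).1 hz
  have h3 := xi_diff t z w
  have hxy := abs_nonneg (xi t z - xi t w)
  have hla : |la S t i z - la S t i w| ≤ (3 * Kt * T + 1) / c * ‖z - w‖ := by
    unfold la
    have h4 : |(z.im - bot S t i (xi t z)) - (w.im - bot S t i (xi t w))| ≤
        ‖z - w‖ + Kt * |xi t z - xi t w| := by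
      have h5 := k1 _ _ hxI hyI
      have h6 := Complex.abs_im_le_norm (z - w)
      rw [Complex.sub_im] at h6
      calc |(z.im - bot S t i (xi t z)) - (w.im - bot S t i (xi t w))|
          = |(z.im - w.im) - (bot S t i (xi t z) - bot S t i (xi t w))| := by
            congr 1
            ring
        _ ≤ |z.im - w.im| + |bot S t i (xi t z) - bot S t i (xi t w)| := abs_sub _ _
        _ ≤ _ := add_le_add h6 h5
    have h7 := quot_bound (a := z.im - bot S t i (xi t z)) (b := ch S t i (xi t z))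
      (a' := w.im - bot S t i (xi t w)) (b' := ch S t i (xi t w)) (c := c)
      (by linarith) (by unfold ch; linarith) hc0 (hcJ _ hx.1 hx.2) (hcJ _ hy.1 hy.2) h4
      (k2 _ _ hxI hyI)
    refine h7.trans ?_
    rw [div_mul_eq_mul_div]
    refine div_le_div_of_nonneg_right ?_ hc0.le
    have : Kt * |xi t z - xi t w| ≤ Kt * (T * ‖z - w‖) := mul_le_mul_of_nonneg_left h3 hKt
    nlinarith
  have hoe : ‖Ou S t Φ i (xi t z) - En S t Φ i (xi t z)‖ ≤ 2 :=
    (norm_sub_le _ _).trans (by linarith [en_norm S t hn i (xi t z), ou_norm S t hn i (xi t z)])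
  obtain ⟨l1, l2⟩ := la_mem S t hc hw
  refine (norm_diff S t i z w).trans ?_
  rw [abs_of_nonneg (by linarith : 0 ≤ 1 - la S t i w), abs_of_nonneg l1]
  have e1 := en_lip S t hd hl hv i (xi t z) (xi t w)
  have e2 := ou_lip S t hd hl hv i (xi t z) (xi t w)
  have e3 : |la S t i z - la S t i w| * ‖Ou S t Φ i (xi t z) - En S t Φ i (xi t z)‖ ≤
      (3 * Kt * T + 1) / c * ‖z - w‖ * 2 :=
    mul_le_mul hla hoe (norm_nonneg _) (by positivity)
  have e4 : (1 - la S t i w) * ‖En S t Φ i (xi t z) - En S t Φ i (xi t w)‖ ≤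
      (1 - la S t i w) * (3 * K * |xi t z - xi t w|) :=
    mul_le_mul_of_nonneg_left e1 (by linarith)
  have e5 : la S t i w * ‖Ou S t Φ i (xi t z) - Ou S t Φ i (xi t w)‖ ≤
      la S t i w * (3 * K * |xi t z - xi t w|) := mul_le_mul_of_nonneg_left e2 l1
  have e6 : 3 * (K : ℝ) * |xi t z - xi t w| ≤ 3 * K * (T * ‖z - w‖) :=
    mul_le_mul_of_nonneg_left h3 (by positivity)
  have e7 : 0 ≤ 2 / d * T * ‖z - w‖ := by positivity
  have e8 : (1 - la S t i w) * (3 * K * |xi t z - xi t w|) +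
      la S t i w * (3 * K * |xi t z - xi t w|) = 3 * K * |xi t z - xi t w| := by ring
  calc _ ≤ 3 * (K : ℝ) * |xi t z - xi t w| + (3 * Kt * T + 1) / c * ‖z - w‖ * 2 := by
        linarith
    _ ≤ 3 * K * (T * ‖z - w‖) + (3 * Kt * T + 1) / c * ‖z - w‖ * 2 +
        2 / d * T * ‖z - w‖ := by linarith
    _ = _ := by ring

lemma gg_lip (hc : T_CH) (hp : T_PART) {K : NNReal} {d : ℝ} (hd : 0 < d)
    (hl : ∀ s, LipschitzOnWith K (Φ s) (Icc (le S t s) (ri S t s)))
    (hv : ∀ s x, le S t s ≤ x → x ≤ ri S t s → (x ≤ le S t s + d ∨ ri S t s - d ≤ x) →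
      Φ s x = 0) (hn : ∀ s x, ‖Φ s x‖ ≤ 1) :
    ∃ L : NNReal, ∀ i, LipschitzOnWith L (GG S t Φ i) (S.tri i) := by
  choose L hL0 hL using fun i => gg_lip1 S t hc hp hd hl hv hn i
  refine ⟨∑ i, (L i).toNNReal, fun i => ?_⟩
  refine LipschitzOnWith.of_dist_le_mul fun z hz w hw => ?_
  rw [dist_eq_norm, dist_eq_norm]
  refine (hL i z hz w hw).trans (mul_le_mul_of_nonneg_right ?_ (norm_nonneg _))
  push_cast
  calc L i = ((L i).toNNReal : ℝ) := (Real.coe_toNNReal _ (hL0 i)).symm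
    _ ≤ ∑ j, ((L j).toNNReal : ℝ) :=
      Finset.single_le_sum (f := fun j => ((L j).toNNReal : ℝ)) (fun j _ => NNReal.coe_nonneg _)
        (Finset.mem_univ i)

/-- the derivative along the leaf -/
lemma fd_leaf (hc : T_CH) (i : Fin n) (z : ℂ) :
    ‖fderiv ℝ (GG S t Φ i) z ((t : ℂ) + Complex.I)‖ ≤
      ‖Ou S t Φ i (xi t z) - En S t Φ i (xi t z)‖ / ch S t i (xi t z) := by
  obtain ⟨-, -, -, -, -, c6, -⟩ := hc n S t i
  refine fd_bound (div_nonneg (norm_nonneg _) (c6 _)) (Eventually.of_forall fun r => ?_)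
  have h1 : xi t (z + r * ((t : ℂ) + Complex.I)) = xi t z := by
    rw [xi_add, xi_mul, xi_dir]
    ring
  have h2 : (z + r * ((t : ℂ) + Complex.I)).im = z.im + r := by
    simp
  have h3 : GG S t Φ i (z + r * ((t : ℂ) + Complex.I)) - GG S t Φ i z =
      ((r / ch S t i (xi t z) : ℝ) : ℂ) * (Ou S t Φ i (xi t z) - En S t Φ i (xi t z)) := by
    have h4 : la S t i (z + r * ((t : ℂ) + Complex.I)) =
        la S t i z + r / ch S t i (xi t z) := by
      unfold la
      rw [h1, h2]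
      ring
    unfold GG
    rw [h1, h4]
    push_cast
    ring
  rw [h3, norm_mul, Complex.norm_real, Real.norm_eq_abs, abs_div, abs_of_nonneg (c6 _)]
  exact le_of_eq (by ring)

/-- the horizontal derivative -/
lemma fd_hor (hc : T_CH) (i : Fin n) {Kt : ℝ} (hKt : 0 ≤ Kt)
    (k1 : ∀ x y, x ∈ Icc (S.xl t i) (S.xr t i) → y ∈ Icc (S.xl t i) (S.xr t i) →
      |bot S t i x - bot S t i y| ≤ Kt * |x - y|)
    (k2 : ∀ x y, x ∈ Icc (S.xl t i) (S.xr t i) → y ∈ Icc (S.xl t i) (S.xr t i) →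
      |ch S t i x - ch S t i y| ≤ 2 * Kt * |x - y|)
    {z : ℂ} (hz : z ∈ S.tri i) (hx1 : S.xl t i < xi t z) (hx2 : xi t z < S.xr t i)
    {s s' : Side n} (hs : s.1 = i) (hs' : s'.1 = i) (hI : S.InI t s (xi t z))
    (hJ : S.InJ t s' (xi t z)) {m m' : ℝ} (hm : 0 ≤ m) (hm' : 0 ≤ m')
    (h1 : ∀ᶠ x' in 𝓝 (xi t z), ‖Φ s x' - Φ s (xi t z)‖ ≤ m * |x' - xi t z|)
    (h2 : ∀ᶠ x' in 𝓝 (xi t z), ‖Φ s' x' - Φ s' (xi t z)‖ ≤ m' * |x' - xi t z|) :
    ‖fderiv ℝ (GG S t Φ i) z 1‖ ≤ 2 * m + 2 * m' +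
      6 * Kt * (‖Ou S t Φ i (xi t z) - En S t Φ i (xi t z)‖ / ch S t i (xi t z)) := by
  obtain ⟨-, c2, -, -, c5, -⟩ := hc n S t i
  have hch := c5 _ hx1 hx2
  obtain ⟨-, -, z3, z4⟩ := (c2 z).1 hz
  obtain ⟨l1, l2⟩ := la_mem S t hc hz
  refine fd_bound (by positivity) ?_
  -- the shifted coordinate
  have htend : Tendsto (fun r : ℝ => xi t z + r) (𝓝 0) (𝓝 (xi t z)) := by
    have : Tendsto (fun r : ℝ => xi t z + r) (𝓝 0) (𝓝 (xi t z + 0)) :=
      (continuous_const.add continuous_id).tendsto 0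
    rwa [add_zero] at this
  have a1 := htend.eventually h1
  have a2 := htend.eventually h2
  have a3 : ∀ᶠ r : ℝ in 𝓝 0, S.xl t i < xi t z + r := htend.eventually (lt_mem_nhds hx1)
  have a4 : ∀ᶠ r : ℝ in 𝓝 0, xi t z + r < S.xr t i := htend.eventually (gt_mem_nhds hx2)
  have a5 : ∀ᶠ r : ℝ in 𝓝 0, S.InI t s (xi t z + r) :=
    (htend.eventually (lt_mem_nhds hI.1)).and (htend.eventually (gt_mem_nhds hI.2))
  have a6 : ∀ᶠ r : ℝ in 𝓝 0, S.InJ t s' (xi t z + r) :=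
    (htend.eventually (lt_mem_nhds hJ.1)).and (htend.eventually (gt_mem_nhds hJ.2))
  have a7 : ∀ᶠ r : ℝ in 𝓝 0, |r| * (6 * Kt) < ch S t i (xi t z) := by
    have : Tendsto (fun r : ℝ => |r| * (6 * Kt)) (𝓝 0) (𝓝 (|0| * (6 * Kt))) :=
      (continuous_abs.mul continuous_const).tendsto 0
    rw [abs_zero, zero_mul] at this
    exact this.eventually (gt_mem_nhds hch)
  filter_upwards [a1, a2, a3, a4, a5, a6, a7] with r b1 b2 b3 b4 b5 b6 b7
  have hxr : xi t (z + r * 1) = xi t z + r := by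
    rw [mul_one, xi_add]
    congr 1
    simp [xi]
  have him : (z + r * 1).im = z.im := by simp
  have hI1 : xi t z ∈ Icc (S.xl t i) (S.xr t i) := ⟨hx1.le, hx2.le⟩
  have hI2 : xi t z + r ∈ Icc (S.xl t i) (S.xr t i) := ⟨b3.le, b4.le⟩
  have habs : |xi t z - (xi t z + r)| = |r| := by
    rw [sub_add_cancel_left, abs_neg]
  have habs' : |xi t z + r - xi t z| = |r| := by
    rw [add_sub_cancel_left]
  have d1 := k1 _ _ hI1 hI2
  have d2 := k2 _ _ hI1 hI2
  rw [habs] at d1 d2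
  have hr0 := abs_nonneg r
  have hch2 : ch S t i (xi t z) / 2 ≤ ch S t i (xi t z + r) := by
    have := (abs_le.1 d2).2
    nlinarith
  have hla : |la S t i z - la S t i (z + r * 1)| ≤ 6 * Kt * |r| / ch S t i (xi t z) := by
    unfold la
    rw [hxr, him]
    have h7 := quot_bound (a := z.im - bot S t i (xi t z)) (b := ch S t i (xi t z))
      (a' := z.im - bot S t i (xi t z + r)) (b' := ch S t i (xi t z + r))
      (c := ch S t i (xi t z) / 2) (δ := Kt * |r|) (ε := 2 * Kt * |r|)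
      (by linarith) (by unfold ch; linarith) (by linarith) (by linarith) hch2
      (by
        have : z.im - bot S t i (xi t z) - (z.im - bot S t i (xi t z + r)) =
          -(bot S t i (xi t z) - bot S t i (xi t z + r)) := by ring
        rw [this, abs_neg]
        exact d1) d2
    refine h7.trans (le_of_eq ?_)
    field_simp
    ring
  have hla1 : |la S t i z - la S t i (z + r * 1)| ≤ 1 := by
    refine hla.trans ?_
    rw [div_le_one hch]
    linarith
  have e1 := (abs_le.1 hla1).1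
  have e2 := (abs_le.1 hla1).2
  have f1 : |1 - la S t i (z + r * 1)| ≤ 2 := by
    rw [abs_le]
    constructor <;> linarith
  have f2 : |la S t i (z + r * 1)| ≤ 2 := by
    rw [abs_le]
    constructor <;> linarith
  rw [norm_sub_rev]
  refine (norm_diff S t i z (z + r * 1)).trans ?_
  rw [hxr]
  have g1 : ‖En S t Φ i (xi t z) - En S t Φ i (xi t z + r)‖ ≤ m * |r| := by
    rw [← hs, en_eq S t Φ hI, en_eq S t Φ b5, norm_sub_rev, ← habs']
    exact b1
  have g2 : ‖Ou S t Φ i (xi t z) - Ou S t Φ i (xi t z + r)‖ ≤ m' * |r| := by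
    rw [← hs', ou_eq S t Φ hJ, ou_eq S t Φ b6, norm_sub_rev, ← habs']
    exact b2
  have g3 : |1 - la S t i (z + r * 1)| * ‖En S t Φ i (xi t z) - En S t Φ i (xi t z + r)‖ ≤
      2 * (m * |r|) := mul_le_mul f1 g1 (norm_nonneg _) (by norm_num)
  have g4 : |la S t i (z + r * 1)| * ‖Ou S t Φ i (xi t z) - Ou S t Φ i (xi t z + r)‖ ≤
      2 * (m' * |r|) := mul_le_mul f2 g2 (norm_nonneg _) (by norm_num)
  have g5 : |la S t i z - la S t i (z + r * 1)| *
      ‖Ou S t Φ i (xi t z) - En S t Φ i (xi t z)‖ ≤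
      6 * Kt * |r| / ch S t i (xi t z) * ‖Ou S t Φ i (xi t z) - En S t Φ i (xi t z)‖ :=
    mul_le_mul_of_nonneg_right hla (norm_nonneg _)
  calc _ ≤ 2 * (m * |r|) + 2 * (m' * |r|) +
        6 * Kt * |r| / ch S t i (xi t z) *
          ‖Ou S t Φ i (xi t z) - En S t Φ i (xi t z)‖ := by linarith
    _ = _ := by ring

end deriv

end Pool.Agent.H54.BQ
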